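import Mathlib

set_option autoImplicit false
open Finset
open scoped Classical

namespace Pool.Agent.H.MP_47966f_an

def P (N : ℕ → ℕ) (k : ℕ) : ℕ := ∏ i ∈ range k, N i

variable {N : ℕ → ℕ}

theorem P_succ (k : ℕ) : P N (k + 1) = P N k * N k := prod_range_succ _ _

theorem P_dvd {j k : ℕ} (h : j ≤ k) : (P N j : ℤ) ∣ P N k :=
  Int.natCast_dvd_natCast.2 (prod_dvd_prod_of_subset _ _ _ (range_subset_range.2 h))

theorem P_gt (hN : ∀ k, 2 ≤ N k) (k : ℕ) : k < P N k := by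
  induction k with
  | zero => simp [P]
  | succ k ih => rw [P_succ]; nlinarith [hN k]

theorem P_pos (hN : ∀ k, 2 ≤ N k) (k : ℕ) : 0 < P N k := (Nat.zero_le k).trans_lt (P_gt hN k)

def Lev (N : ℕ → ℕ) (k : ℕ) (d : ℤ) : Prop := (P N k : ℤ) ∣ d ∧ ¬ (P N (k + 1) : ℤ) ∣ d

def Od (N : ℕ → ℕ) (r : ℕ) (d : ℤ) : Prop := ∃ k, k % 2 = r ∧ Lev N k d

theorem Lev.uniq {j k : ℕ} {d : ℤ} (h : Lev N j d) (h' : Lev N k d) : j = k := by
  rcases lt_trichotomy j k with h1 | h1 | h1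
  · exact absurd ((P_dvd h1).trans h'.1) h.2
  · exact h1
  · exact absurd ((P_dvd h1).trans h.1) h'.2

theorem Lev.add {k : ℕ} {d e : ℤ} (h : Lev N k d) (he : (P N (k + 1) : ℤ) ∣ e) :
    Lev N k (e + d) :=
  ⟨((P_dvd (Nat.le_succ k)).trans he).add h.1, fun h1 => h.2 ((dvd_add_right he).1 h1)⟩

theorem Od.neg {r : ℕ} {d : ℤ} (h : Od N r d) : Od N r (-d) := by
  obtain ⟨k, h1, h2, h3⟩ := h
  exact ⟨k, h1, dvd_neg.2 h2, fun h => h3 (dvd_neg.1 h)⟩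

theorem lev_ex (hN : ∀ k, 2 ≤ N k) {d : ℤ} (hd : d ≠ 0) : ∃ k, Lev N k d := by
  by_contra! hc
  have h : ∀ k, (P N k : ℤ) ∣ d := by
    intro k
    induction k with
    | zero => simp [P]
    | succ k ih => by_contra h; exact hc k ⟨ih, h⟩
  have h1 := Int.le_of_dvd (abs_pos.2 hd) ((dvd_abs _ _).2 (h d.natAbs))
  have h2 := P_gt hN d.natAbs
  rw [Int.abs_eq_natAbs] at h1
  omega

def Orth (N : ℕ → ℕ) (r : ℕ) (S : Set ℤ) : Prop := ∀ a ∈ S, ∀ b ∈ S, a ≠ b → Od N r (a - b)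

def Mx (N : ℕ → ℕ) (r : ℕ) (S W : Set ℤ) : Prop :=
  ∀ x ∈ W, (∀ t ∈ S, t ≠ x → Od N r (x - t)) → x ∈ S

theorem ext1 {r k : ℕ} {S : Set ℤ} (hS : Orth N r S) {s x : ℤ} (hs : s ∈ S) (hk : k % 2 = r)
    (hx : (P N k : ℤ) ∣ x - s) (hn : ∀ t ∈ S, ¬ (P N (k + 1) : ℤ) ∣ x - t) :
    ∀ t ∈ S, Od N r (x - t) := by
  intro t ht
  by_cases hst : s = t
  · exact ⟨k, hk, hst ▸ hx, hn t ht⟩
  obtain ⟨j, hj, hl⟩ := hS s hs t ht hst
  have e : x - t = (x - s) + (s - t) := by ring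
  rcases lt_or_ge j k with h | h
  · exact ⟨j, hj, e ▸ hl.add ((P_dvd h).trans hx)⟩
  · exact ⟨k, hk, e ▸ hx.add ((P_dvd h).trans hl.1), hn t ht⟩

theorem Orth.ins {r : ℕ} {S : Set ℤ} (hS : Orth N r S) {x : ℤ}
    (h : ∀ t ∈ S, t ≠ x → Od N r (x - t)) : Orth N r (insert x S) := by
  rintro a (rfl | ha) b (rfl | hb) hab
  · exact absurd rfl hab
  · exact h b hb hab.symm
  · simpa using (h a ha hab).neg
  · exact hS a ha b hb hab

theorem full {r k : ℕ} {S W : Set ℤ} (hS : Orth N r S) (hM : Mx N r S W) {s x : ℤ} (hs : s ∈ S)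
    (hk : k % 2 = r) (hx : (P N k : ℤ) ∣ x - s) (hW : x ∈ W) :
    ∃ t ∈ S, (P N (k + 1) : ℤ) ∣ x - t := by
  by_contra! hc
  exact hc x (hM x hW fun t ht _ => ext1 hS hs hk hx hc t ht) (by simp)

theorem closed (hN : ∀ k, 2 ≤ N k) {r : ℕ} {S : Set ℤ} (hS : Orth N r S)
    (hM : Mx N r S Set.univ) {x : ℤ} (hx : ∀ k, ∃ a ∈ S, (P N k : ℤ) ∣ x - a) : x ∈ S := by
  refine hM x trivial fun t ht htx => ?_
  obtain ⟨j, hj⟩ := lev_ex hN (sub_ne_zero.2 htx.symm)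
  obtain ⟨a, ha, h⟩ := hx (j + 1)
  have h1 : Lev N j (a - t) := by
    have := hj.add (dvd_neg.2 h)
    rwa [show -(x - a) + (x - t) = a - t by ring] at this
  obtain ⟨i, hi, h2⟩ := hS a ha t ht (by rintro rfl; exact h1.2 (by simp))
  exact ⟨j, h2.uniq h1 ▸ hi, hj⟩

theorem greedy (hN : ∀ k, 2 ≤ N k) {A : Set ℤ} (hA : Orth N 0 A) (hM : Mx N 0 A Set.univ)
    (hA0 : A.Nonempty) {F : Finset ℤ} (hF : Orth N 1 F) (hF0 : F.Nonempty) (n : ℤ) :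
    ∃ F' : Finset ℤ, F ⊆ F' ∧ Orth N 1 F' ∧ ∃ a ∈ A, n - a ∈ F' := by
  by_contra! hc
  have h1 : ∀ k, ∃ a ∈ A, ∃ f ∈ F, (P N k : ℤ) ∣ n - a - f := by
    intro k
    induction k with
    | zero =>
      obtain ⟨a, ha⟩ := hA0
      obtain ⟨f, hf⟩ := hF0
      exact ⟨a, ha, f, hf, by simp [P]⟩
    | succ k ih =>
      obtain ⟨a, ha, f, hf, h⟩ := ih
      rcases Nat.mod_two_eq_zero_or_one k with hk | hk
      · obtain ⟨t, ht, h2⟩ := full hA hM ha hk (x := n - f)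
          (by rwa [show n - f - a = n - a - f by ring]) trivial
        exact ⟨t, ht, f, hf, by rwa [show n - t - f = n - f - t by ring]⟩
      · by_contra! h2
        refine hc (insert (n - a) F) (subset_insert _ _) ?_ a ha (mem_insert_self _ _)
        rw [coe_insert]
        exact hF.ins fun t ht _ => ext1 hF hf hk h (fun t ht => h2 a ha t ht) t ht
  have h2 : ∃ f ∈ F, ∀ k, ∃ a ∈ A, (P N k : ℤ) ∣ n - f - a := by
    by_contra! h2
    choose! κ hκ using h2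
    obtain ⟨a, ha, f, hf, h⟩ := h1 (F.sup κ)
    refine hκ f hf a ha ((P_dvd (le_sup hf)).trans ?_)
    rwa [show n - f - a = n - a - f by ring]
  obtain ⟨f, hf, h3⟩ := h2
  exact hc F subset_rfl hF _ (closed hN hA hM h3) (by simpa using hf)

def Good (N : ℕ → ℕ) (M : ℕ) (G : Finset ℤ) : Prop :=
  (∀ g ∈ G, 2 * |g| ≤ P N (2 * M)) ∧
    ∀ g ∈ G, ∀ k < 2 * M, k % 2 = 1 → ∀ x, (P N k : ℤ) ∣ x - g →
      ∃ t ∈ G, (P N (k + 1) : ℤ) ∣ x - t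

theorem extend (hN : ∀ k, 2 ≤ N k) {F : Finset ℤ} (hF : Orth N 1 F) (j : ℕ) :
    ∃ G : Finset ℤ, F ⊆ G ∧ Orth N 1 G ∧ ∃ M, j ≤ M ∧ Good N M G := by
  obtain ⟨M, hM⟩ : ∃ M, M = j + F.sup fun f => f.natAbs := ⟨_, rfl⟩
  let W : Finset ℤ := (Icc (-(P N (2 * M) : ℤ)) (P N (2 * M))).filter
    fun g => 2 * |g| ≤ P N (2 * M)
  have hW : ∀ g, g ∈ W ↔ 2 * |g| ≤ P N (2 * M) := fun g => by
    simp only [W, mem_filter, mem_Icc, and_iff_right_iff_imp]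
    intro h
    constructor <;> cases abs_cases g <;> omega
  have hFW : F ⊆ W := fun f hf => by
    rw [hW]
    have h1 : f.natAbs ≤ F.sup fun f => f.natAbs := le_sup (f := fun f : ℤ => f.natAbs) hf
    have h2 := P_gt hN (2 * M)
    rw [Int.abs_eq_natAbs]
    omega
  obtain ⟨G, hG, hmax⟩ := exists_max_image
    (W.powerset.filter fun G => F ⊆ G ∧ Orth N 1 G) card ⟨F, by simp [hFW, hF]⟩
  simp only [mem_filter, mem_powerset] at hG hmax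
  have hMx : Mx N 1 G W := fun x hx h => by
    by_contra hxG
    have := hmax (insert x G) ⟨insert_subset hx hG.1, hG.2.1.trans (subset_insert _ _), by
      rw [coe_insert]; exact hG.2.2.ins h⟩
    rw [card_insert_of_notMem hxG] at this
    omega
  refine ⟨G, hG.2.1, hG.2.2, M, by omega, fun g hg => (hW g).1 (hG.1 hg), ?_⟩
  intro g hg k hk hk1 x hx
  have hp := P_pos hN (2 * M)
  have h1 : (P N (2 * M) : ℤ) ∣ x.bmod (P N (2 * M)) - x := Int.dvd_bmod_sub_self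
  obtain ⟨t, ht, h2⟩ := full hG.2.2 hMx hg hk1 (x := x.bmod (P N (2 * M))) (by
    have := ((P_dvd hk.le).trans h1).add hx
    rwa [sub_add_sub_cancel] at this) (by
    rw [mem_coe, hW]
    have a1 := Int.le_bmod (x := x) hp
    have a2 := Int.bmod_lt (x := x) hp
    cases abs_cases (x.bmod (P N (2 * M))) <;> omega)
  refine ⟨t, ht, ?_⟩
  have := h2.sub ((P_dvd hk).trans h1)
  rwa [show x.bmod (P N (2 * M)) - t - (x.bmod (P N (2 * M)) - x) = x - t by ring] at this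

theorem comb (hN : ∀ k, 2 ≤ N k) {A : Set ℤ} (hA : Orth N 0 A) (hM : Mx N 0 A Set.univ)
    (hA0 : A.Nonempty) : ∃ B : Set ℤ, Orth N 1 B ∧ (∀ n, ∃ a ∈ A, n - a ∈ B) ∧
      ∀ G : Finset ℤ, ↑G ⊆ B → ∀ j, ∃ G' : Finset ℤ, G ⊆ G' ∧ ↑G' ⊆ B ∧ G'.Nonempty ∧
        ∃ M, j ≤ M ∧ Good N M G' := by
  have st : ∀ (F : {F : Finset ℤ // Orth N 1 F ∧ F.Nonempty}) (j : ℕ),
      ∃ G : {F : Finset ℤ // Orth N 1 F ∧ F.Nonempty}, F.1 ⊆ G.1 ∧
        (∃ a ∈ A, Equiv.intEquivNat.symm j - a ∈ G.1) ∧ ∃ M, j ≤ M ∧ Good N M G.1 := by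
    intro F j
    obtain ⟨F', h1, h2, a, ha, h3⟩ := greedy hN hA hM hA0 F.2.1 F.2.2 (Equiv.intEquivNat.symm j)
    obtain ⟨G, h4, h5, h6⟩ := extend hN h2 j
    exact ⟨⟨G, h5, F.2.2.mono (h1.trans h4)⟩, h1.trans h4, ⟨a, ha, h4 h3⟩, h6⟩
  choose st h1 h2 h3 using st
  let s : ℕ → {F : Finset ℤ // Orth N 1 F ∧ F.Nonempty} := fun j =>
    Nat.rec ⟨{0}, by simp [Orth], by simp⟩ (fun j F => st F j) j
  have hs : ∀ j, s (j + 1) = st (s j) j := fun _ => rfl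
  have mono : Monotone fun j => (s j).1 := monotone_nat_of_le_succ fun j => h1 _ _
  have fin : ∀ G : Finset ℤ, (↑G ⊆ ⋃ j, ((s j).1 : Set ℤ)) → ∃ j, G ⊆ (s j).1 := by
    intro G hG
    have : ∀ g ∈ G, ∃ j, g ∈ (s j).1 := fun g hg => by simpa using hG hg
    choose! κ hκ using this
    exact ⟨G.sup κ, fun g hg => mono (le_sup hg) (hκ g hg)⟩
  refine ⟨⋃ j, (s j).1, ?_, fun n => ?_, fun G hG j => ?_⟩
  · intro a ha b hb hab
    obtain ⟨j, hj⟩ := fin {a, b} (by rw [coe_pair]; exact Set.pair_subset ha hb)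
    exact (s j).2.1 a (hj (by simp)) b (hj (by simp)) hab
  · obtain ⟨a, ha, h⟩ := h2 (s (Equiv.intEquivNat n)) (Equiv.intEquivNat n)
    rw [Equiv.symm_apply_apply, ← hs] at h
    exact ⟨a, ha, Set.mem_iUnion.2 ⟨Equiv.intEquivNat n + 1, h⟩⟩
  · obtain ⟨i, hi⟩ := fin G hG
    obtain ⟨M, h4, h5⟩ := h3 (s (i + j)) (i + j)
    rw [← hs] at h5
    exact ⟨(s (i + j + 1)).1, hi.trans (mono (by omega : i ≤ i + j + 1)), Set.subset_iUnion
      (fun j => ((s j).1 : Set ℤ)) (i + j + 1), (s (i + j + 1)).2.2, M, by omega, h5⟩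

end Pool.Agent.H.MP_47966f_an
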