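import Pool.Agent.H.MP_47966f_an.A

set_option autoImplicit false
open Finset Filter Topology
open scoped Classical ComplexConjugate

namespace Pool.Agent.H.MP_47966f_an

noncomputable def E (x : ℝ) : ℂ := Complex.exp ((2 * Real.pi * x : ℝ) * Complex.I)

theorem E_add (x y : ℝ) : E (x + y) = E x * E y := by
  unfold E; rw [← Complex.exp_add]; congr 1; push_cast; ring

theorem E_zero : E 0 = 1 := by simp [E]

theorem E_norm (x : ℝ) : ‖E x‖ = 1 := Complex.norm_exp_ofReal_mul_I _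

theorem E_conj (x : ℝ) : conj (E x) = E (-x) := by
  unfold E; rw [← Complex.exp_conj]; congr 1; simp [map_ofNat]

theorem E_one_iff (x : ℝ) : E x = 1 ↔ ∃ n : ℤ, x = n := by
  unfold E
  rw [Complex.exp_eq_one_iff]
  have hp : (2 * Real.pi * Complex.I : ℂ) ≠ 0 := Complex.two_pi_I_ne_zero
  constructor
  · rintro ⟨n, hn⟩
    refine ⟨n, ?_⟩
    have : (x : ℂ) = (n : ℂ) := by
      apply mul_left_cancel₀ hp
      push_cast at hn
      linear_combination hn
    exact_mod_cast this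
  · rintro ⟨n, rfl⟩
    exact ⟨n, by push_cast; ring⟩

theorem E_int (n : ℤ) : E n = 1 := (E_one_iff _).2 ⟨n, rfl⟩

theorem E_sub_one (x : ℝ) : ‖E x - 1‖ ≤ 63 / 10 * |x| := by
  unfold E
  rw [mul_comm _ Complex.I]
  refine Real.norm_exp_I_mul_ofReal_sub_one_le.trans ?_
  rw [Real.norm_eq_abs, abs_mul, abs_mul, abs_of_pos Real.pi_pos]
  have := Real.pi_lt_d2
  have := abs_nonneg x
  simp only [Nat.abs_ofNat]
  nlinarith

@[fun_prop] theorem E_cont : Continuous E := by unfold E; fun_prop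

theorem E_nat_mul (n : ℕ) (x : ℝ) : E (n * x) = E x ^ n := by
  induction n with
  | zero => simp [E_zero]
  | succ n ih => push_cast; rw [add_mul, one_mul, E_add, ih, pow_succ]

theorem geo0 {n : ℕ} {x : ℝ} (h1 : E (n * x) = 1) (h2 : E x ≠ 1) :
    ∑ j ∈ range n, E (j * x) = 0 := by
  simp only [E_nat_mul] at h1 ⊢
  have := mul_geom_sum (E x) n
  rw [h1, sub_self] at this
  exact (mul_eq_zero.1 this).resolve_left (sub_ne_zero.2 h2)

variable {N : ℕ → ℕ}

noncomputable def ph (N : ℕ → ℕ) (k : ℕ) (ξ : ℝ) : ℂ :=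
  (N k : ℂ)⁻¹ * ∑ j ∈ range (N k), E (j * (ξ / P N (k + 1)))

theorem ph_zero (hN : ∀ k, 2 ≤ N k) (k : ℕ) (ξ : ℝ) :
    ph N k ξ = 0 ↔ ∃ d : ℤ, ξ = d ∧ Lev N k d := by
  have hn : (0 : ℝ) < N k := by have := hN k; positivity
  have hn' : (N k : ℂ) ≠ 0 := by exact_mod_cast hn.ne'
  have hp : (0 : ℝ) < P N k := by exact_mod_cast P_pos hN k
  have hq : (P N (k + 1) : ℝ) = P N k * N k := by rw [P_succ]; push_cast; ring
  have e1 : N k * (ξ / P N (k + 1)) = ξ / P N k := by rw [hq]; field_simp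
  unfold ph
  rw [mul_eq_zero, or_iff_right (inv_ne_zero hn')]
  constructor
  · intro h
    have h4 := mul_geom_sum (E (ξ / P N (k + 1))) (N k)
    simp only [← E_nat_mul] at h4
    rw [h, mul_zero, eq_comm, sub_eq_zero, e1, E_one_iff] at h4
    obtain ⟨u, hu⟩ := h4
    rw [div_eq_iff hp.ne'] at hu
    refine ⟨u * P N k, by push_cast; exact hu, Dvd.intro_left _ rfl, ?_⟩
    rintro ⟨w, hw⟩
    have : ξ / P N (k + 1) = w := by
      have h5 : (u : ℝ) * P N k = P N (k + 1) * w := by exact_mod_cast hw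
      rw [hu, h5, hq]; field_simp
    rw [this] at h
    simp only [E_nat_mul, E_int, one_pow, sum_const, card_range, nsmul_eq_mul, mul_one] at h
    exact hn' h
  · rintro ⟨d, rfl, ⟨u, rfl⟩, h2⟩
    apply geo0
    · rw [e1, E_one_iff]; exact ⟨u, by push_cast; field_simp⟩
    · rw [Ne, E_one_iff]
      rintro ⟨w, hw⟩
      rw [div_eq_iff (by rw [hq]; positivity)] at hw
      exact h2 ⟨w, by rw [mul_comm _ w]; exact_mod_cast hw⟩

theorem ph_per (hN : ∀ k, 2 ≤ N k) (k : ℕ) (ξ : ℝ) {a b : ℤ} (h : (P N (k + 1) : ℤ) ∣ a - b) :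
    ph N k (ξ + a) = ph N k (ξ + b) := by
  obtain ⟨u, hu⟩ := h
  have hp : (0 : ℝ) < P N (k + 1) := by exact_mod_cast P_pos hN (k + 1)
  unfold ph
  congr 1
  refine sum_congr rfl fun j _ => ?_
  have h1 : (a : ℝ) = b + P N (k + 1) * u := by
    have : a = b + P N (k + 1) * u := by linarith
    exact_mod_cast this
  have : j * ((ξ + a) / P N (k + 1)) = j * ((ξ + b) / P N (k + 1)) + ((j * u : ℤ) : ℝ) := by
    rw [h1]; push_cast; field_simp; ring
  rw [this, E_add, E_int, mul_one]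

theorem ph_near (hN : ∀ k, 2 ≤ N k) (k : ℕ) (ξ : ℝ) :
    1 - 63 / 20 * |ξ| / P N k ≤ ‖ph N k ξ‖ := by
  have hn : (0 : ℝ) < N k := by have := hN k; positivity
  have hn' : (N k : ℂ) ≠ 0 := by exact_mod_cast hn.ne'
  have hp : (0 : ℝ) < P N k := by exact_mod_cast P_pos hN k
  have hq : (P N (k + 1) : ℝ) = P N k * N k := by rw [P_succ]; push_cast; ring
  have h1 : ph N k ξ - 1 = (N k : ℂ)⁻¹ * ∑ j ∈ range (N k), (E (j * (ξ / P N (k + 1))) - 1) := by
    unfold ph
    rw [sum_sub_distrib, mul_sub]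
    simp [hn']
  have h2 : ∀ n : ℕ, ∑ j ∈ range n, (j : ℝ) ≤ n * n / 2 := by
    intro n
    induction n with
    | zero => simp
    | succ n ih => rw [sum_range_succ]; push_cast; nlinarith
  have h3 : ‖ph N k ξ - 1‖ ≤ 63 / 20 * |ξ| / P N k := by
    rw [h1, norm_mul, norm_inv, Complex.norm_natCast]
    have : ‖∑ j ∈ range (N k), (E (j * (ξ / P N (k + 1))) - 1)‖ ≤
        63 / 10 * (|ξ| / P N (k + 1)) * (N k * N k / 2) := by
      refine (norm_sum_le _ _).trans ((sum_le_sum fun j _ => E_sub_one _).trans ?_)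
      refine le_trans (le_of_eq ?_) (mul_le_mul_of_nonneg_left (h2 (N k)) (by positivity))
      rw [mul_sum]
      refine sum_congr rfl fun j _ => ?_
      rw [abs_mul, abs_div, Nat.abs_cast, Nat.abs_cast]; ring
    refine (mul_le_mul_of_nonneg_left this (by positivity)).trans (le_of_eq ?_)
    rw [hq]; field_simp; ring
  have h4 := norm_sub_norm_le (1 : ℂ) (ph N k ξ)
  rw [norm_sub_rev, norm_one] at h4
  linarith

theorem pars (hN : ∀ k, 2 ≤ N k) (k : ℕ) (ξ : ℝ) :
    ∑ c ∈ range (N k), ‖ph N k (ξ + c * P N k)‖ ^ 2 = 1 := by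
  have hn : (0 : ℝ) < N k := by have := hN k; positivity
  have hn' : (N k : ℂ) ≠ 0 := by exact_mod_cast hn.ne'
  have hp : (0 : ℝ) < P N k := by exact_mod_cast P_pos hN k
  have hq : (P N (k + 1) : ℝ) = P N k * N k := by rw [P_succ]; push_cast; ring
  apply Complex.ofReal_injective
  push_cast
  have h1 : ∀ c : ℕ, ((‖ph N k (ξ + c * P N k)‖ : ℝ) : ℂ) ^ 2 = (N k : ℂ)⁻¹ * (N k : ℂ)⁻¹ *
      ∑ i ∈ range (N k), ∑ j ∈ range (N k),
        E ((i - j) * (ξ / P N (k + 1))) * E (c * ((i - j) / N k)) := by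
    intro c
    rw [← Complex.mul_conj']
    unfold ph
    rw [map_mul, map_sum, mul_mul_mul_comm, sum_mul_sum]
    congr 1
    · simp
    · refine sum_congr rfl fun i _ => sum_congr rfl fun j _ => ?_
      rw [E_conj, ← E_add, ← E_add]
      congr 1
      rw [hq]; field_simp; ring
  have h2 : ∀ i ∈ range (N k), ∀ j ∈ range (N k), ∑ c ∈ range (N k), E (c * ((i - j) / N k)) =
      if j = i then (N k : ℂ) else 0 := by
    intro i hi j hj
    split_ifs with h
    · simp [h, E_zero]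
    · apply geo0
      · rw [E_one_iff]; exact ⟨i - j, by push_cast; field_simp⟩
      · rw [Ne, E_one_iff]
        rintro ⟨w, hw⟩
        rw [div_eq_iff hn.ne'] at hw
        have h3 : (i : ℤ) - j = w * N k := by exact_mod_cast hw
        rw [mem_range] at hi hj
        have h4 : w = 0 := by
          by_contra h5
          rcases lt_or_gt_of_ne h5 with h6 | h6 <;> nlinarith
        rw [h4] at h3
        omega
  simp only [h1]
  rw [← mul_sum, sum_comm]
  have h3 : ∀ i ∈ range (N k), ∑ c ∈ range (N k), ∑ j ∈ range (N k),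
      E ((i - j) * (ξ / P N (k + 1))) * E (c * ((i - j) / N k)) = N k := by
    intro i hi
    rw [sum_comm]
    simp only [← mul_sum]
    rw [sum_congr rfl fun j hj => by rw [h2 i hi j hj]]
    simp [mem_range.1 hi, E_zero]
  rw [sum_congr rfl h3]
  simp only [sum_const, card_range, nsmul_eq_mul]
  field_simp

noncomputable def Ph (N : ℕ → ℕ) (r n : ℕ) (ξ : ℝ) : ℂ := ∏ i ∈ range n, ph N (2 * i + r) ξ

theorem P_four (hN : ∀ k, 2 ≤ N k) (k j : ℕ) : (P N k : ℝ) * 4 ^ j ≤ P N (k + 2 * j) := by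
  induction j with
  | zero => simp
  | succ j ih =>
    rw [show k + 2 * (j + 1) = k + 2 * j + 1 + 1 by ring, P_succ, P_succ, pow_succ]
    push_cast
    have a : (2 : ℝ) ≤ N (k + 2 * j) := by exact_mod_cast hN _
    have b : (2 : ℝ) ≤ N (k + 2 * j + 1) := by exact_mod_cast hN _
    have c : (0 : ℝ) ≤ P N (k + 2 * j) := by positivity
    have d : (4 : ℝ) ≤ N (k + 2 * j) * N (k + 2 * j + 1) := by nlinarith
    nlinarith [mul_le_mul_of_nonneg_left d c]

theorem tail (hN : ∀ k, 2 ≤ N k) (r m : ℕ) (ξ y : ℝ) (h : 63 / 20 * |ξ| / P N (2 * m + r) ≤ y)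
    (hy : y ≤ 3 / 4) (j : ℕ) :
    ‖Ph N r m ξ‖ * (1 - 4 / 3 * y * (1 - (1 / 4) ^ j)) ≤ ‖Ph N r (m + j) ξ‖ := by
  have y0 : 0 ≤ y := le_trans (by positivity) h
  have hp : (0 : ℝ) < P N (2 * m + r) := by exact_mod_cast P_pos hN _
  induction j with
  | zero => simp
  | succ j ih =>
    rw [← add_assoc]
    unfold Ph at ih ⊢
    rw [prod_range_succ, norm_mul]
    have h1 := ph_near hN (2 * (m + j) + r) ξ
    have h2 := P_four hN (2 * m + r) j
    rw [show 2 * m + r + 2 * j = 2 * (m + j) + r by ring] at h2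
    have q0 : (0 : ℝ) < (1 / 4) ^ j := by positivity
    have q1 : (1 / 4 : ℝ) ^ j ≤ 1 := pow_le_one₀ (by norm_num) (by norm_num)
    have h3 : 63 / 20 * |ξ| / P N (2 * (m + j) + r) ≤ y * (1 / 4) ^ j := by
      refine (div_le_div_of_nonneg_left (by positivity) (by positivity) h2).trans ?_
      rw [one_div_pow, mul_one_div, ← div_div]
      exact div_le_div_of_nonneg_right h (by positivity)
    have h4 : 0 ≤ 1 - y * (1 / 4) ^ j := by nlinarith
    have h5 : 1 - y * (1 / 4) ^ j ≤ ‖ph N (2 * (m + j) + r) ξ‖ := by linarith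
    refine le_trans ?_ (mul_le_mul ih h5 h4 (norm_nonneg _))
    refine le_trans (mul_le_mul_of_nonneg_left ?_ (norm_nonneg _)) (mul_assoc _ _ _).ge
    rw [pow_succ]
    nlinarith [mul_nonneg (mul_nonneg y0 y0) (mul_nonneg q0.le (sub_nonneg.2 q1))]

theorem tail_lim (hN : ∀ k, 2 ≤ N k) {r : ℕ} (m : ℕ) {ξ : ℝ} (y : ℝ)
    (h : 63 / 20 * |ξ| / P N (2 * m + r) ≤ y) (hy : y ≤ 3 / 4) {z : ℂ}
    (hz : Tendsto (fun n => Ph N r n ξ) atTop (𝓝 z)) : ‖Ph N r m ξ‖ * (1 - 4 / 3 * y) ≤ ‖z‖ := by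
  have y0 : 0 ≤ y := le_trans (by positivity) h
  refine ge_of_tendsto hz.norm (eventually_atTop.2 ⟨m, fun n hn => ?_⟩)
  obtain ⟨j, rfl⟩ := Nat.exists_eq_add_of_le hn
  refine le_trans (mul_le_mul_of_nonneg_left ?_ (norm_nonneg _)) (tail hN r m ξ y h hy j)
  have q0 : (0 : ℝ) < (1 / 4) ^ j := by positivity
  nlinarith

theorem lim_zero (hN : ∀ k, 2 ≤ N k) {r : ℕ} (hr : r < 2) {ξ : ℝ} {z : ℂ}
    (hz : Tendsto (fun n => Ph N r n ξ) atTop (𝓝 z)) : z = 0 ↔ ∃ d : ℤ, ξ = d ∧ Od N r d := by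
  constructor
  · rintro rfl
    obtain ⟨m, hm⟩ := exists_nat_ge (7 * |ξ|)
    have h1 : ((2 * m + r : ℕ) : ℝ) < P N (2 * m + r) := by exact_mod_cast P_gt hN _
    have hp : (0 : ℝ) < P N (2 * m + r) := by exact_mod_cast P_pos hN _
    have := tail_lim hN m (1 / 2) (by
      rw [div_le_iff₀ hp]
      push_cast at h1
      have : (0 : ℝ) ≤ r := by positivity
      have := abs_nonneg ξ
      linarith) (by norm_num) hz
    have h2 : Ph N r m ξ = 0 := by
      rw [norm_zero] at this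
      exact norm_le_zero_iff.1 (by linarith)
    obtain ⟨i, -, hi⟩ := prod_eq_zero_iff.1 h2
    obtain ⟨d, h3, h4⟩ := (ph_zero hN _ _).1 hi
    exact ⟨d, h3, _, by omega, h4⟩
  · rintro ⟨d, h1, k, hk, h2⟩
    refine tendsto_nhds_unique hz (tendsto_const_nhds.congr' (eventually_atTop.2
      ⟨k / 2 + 1, fun n hn => ?_⟩))
    refine (prod_eq_zero (i := k / 2) (mem_range.2 hn) ?_).symm
    rw [show 2 * (k / 2) + r = k by omega]
    exact (ph_zero hN _ _).2 ⟨d, h1, h2⟩

theorem tail_c (hN : ∀ k, 2 ≤ N k) (M : ℕ) {ξ : ℝ} (h : |ξ| ≤ 11 / 20 * P N (2 * M)) {z : ℂ}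
    (hz : Tendsto (fun n => Ph N 1 n ξ) atTop (𝓝 z)) : ‖Ph N 1 M ξ‖ * (1 / 20) ≤ ‖z‖ := by
  have hp : (0 : ℝ) < P N (2 * M) := by exact_mod_cast P_pos hN _
  have h1 : (P N (2 * M) : ℝ) * 2 ≤ P N (2 * M + 1) := by
    rw [P_succ]; push_cast
    exact mul_le_mul_of_nonneg_left (by exact_mod_cast hN _) hp.le
  have h2 := P_four hN (2 * M + 1) 1
  rw [show 2 * M + 1 + 2 * 1 = 2 * (M + 1) + 1 by ring] at h2
  have h3 := tail_lim hN (M + 1) (1 / 4) (by
    rw [div_le_iff₀ (by linarith)]; linarith) (by norm_num) hz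
  have h4 := ph_near hN (2 * M + 1) ξ
  have h5 : 63 / 20 * |ξ| / P N (2 * M + 1) ≤ 9 / 10 := by
    rw [div_le_iff₀ (by linarith)]; linarith
  unfold Ph at h3 ⊢
  rw [prod_range_succ, norm_mul] at h3
  refine le_trans ?_ h3
  rw [mul_assoc]
  exact mul_le_mul_of_nonneg_left (by linarith) (norm_nonneg _)

theorem lower (hN : ∀ k, 2 ≤ N k) {M : ℕ} {G : Finset ℤ} (hG : Good N M G) (h0 : G.Nonempty)
    (ξ : ℝ) : 1 ≤ ∑ g ∈ G, ‖Ph N 1 M (ξ + g)‖ ^ 2 := by
  have key : ∀ j m, m + j = M → ∀ g0 ∈ G, 1 ≤ ∑ g ∈ G with (P N (2 * m + 1) : ℤ) ∣ g - g0,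
      ‖∏ i ∈ Ico m M, ph N (2 * i + 1) (ξ + g)‖ ^ 2 := by
    intro j
    induction j with
    | zero =>
      rintro m rfl g0 hg
      simp only [add_zero, Ico_self, prod_empty, norm_one, one_pow, sum_const, nsmul_eq_mul,
        mul_one, Nat.one_le_cast]
      exact card_pos.2 ⟨g0, by simp [hg]⟩
    | succ j ih =>
      intro m hm g0 hg
      have hlt : m < M := by omega
      have h1 : ∀ c : ℕ, ∃ t ∈ G, (P N (2 * m + 1 + 1) : ℤ) ∣ g0 + c * P N (2 * m + 1) - t :=
        fun c => hG.2 g0 hg _ (by omega) (by omega) _ (by simp)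
      choose t ht hd using h1
      let S : ℕ → Finset ℤ := fun c => G.filter fun g => (P N (2 * (m + 1) + 1) : ℤ) ∣ g - t c
      have hS : ∀ c, ∀ g ∈ S c, (P N (2 * m + 1 + 1) : ℤ) ∣ g - (g0 + c * P N (2 * m + 1)) := by
        intro c g hg
        have := ((P_dvd (by omega : 2 * m + 1 + 1 ≤ 2 * (m + 1) + 1)).trans
          (mem_filter.1 hg).2).sub (hd c)
        rwa [sub_sub_sub_cancel_right] at this
      have hdis : ((range (N (2 * m + 1)) : Finset ℕ) : Set ℕ).PairwiseDisjoint S := by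
        intro c hc c' hc' hne
        refine disjoint_left.2 fun g h1 h2 => hne ?_
        have := (hS c g h1).sub (hS c' g h2)
        rw [show g - (g0 + c * P N (2 * m + 1)) - (g - (g0 + c' * P N (2 * m + 1))) =
          P N (2 * m + 1) * ((c' : ℤ) - c) by ring, P_succ (2 * m + 1), Nat.cast_mul,
          mul_dvd_mul_iff_left (by exact_mod_cast (P_pos hN _).ne')] at this
        have a := mem_range.1 hc
        have b := mem_range.1 hc'
        have := Int.eq_zero_of_abs_lt_dvd this (by rw [abs_lt]; omega)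
        omega
      have hsub : (range (N (2 * m + 1))).biUnion S ⊆
          G.filter fun g => (P N (2 * m + 1) : ℤ) ∣ g - g0 := by
        intro g hg
        obtain ⟨c, -, hc⟩ := mem_biUnion.1 hg
        refine mem_filter.2 ⟨(mem_filter.1 hc).1, ?_⟩
        have := ((P_dvd (Nat.le_succ _)).trans (hS c g hc)).add
          (Dvd.intro_left (c : ℤ) rfl : (P N (2 * m + 1) : ℤ) ∣ _)
        rwa [show g - (g0 + c * P N (2 * m + 1)) + c * P N (2 * m + 1) = g - g0 by ring] at this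
      refine le_trans ?_ (sum_le_sum_of_subset_of_nonneg hsub fun _ _ _ => sq_nonneg _)
      rw [sum_biUnion hdis, ← pars hN (2 * m + 1) (ξ + g0)]
      refine sum_le_sum fun c _ => ?_
      refine (le_mul_of_one_le_right (sq_nonneg _) (ih (m + 1) (by omega) (t c) (ht c))).trans
        (le_of_eq ?_)
      rw [mul_sum]
      refine sum_congr rfl fun g hg => ?_
      rw [prod_eq_prod_Ico_succ_bot hlt, norm_mul, mul_pow, ph_per hN _ ξ (hS c g hg)]
      push_cast
      rw [add_assoc]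
  obtain ⟨g0, hg⟩ := h0
  refine (key M 0 (by simp) g0 hg).trans ?_
  unfold Ph
  rw [range_eq_Ico]
  exact sum_le_sum_of_subset_of_nonneg (filter_subset _ _) fun _ _ _ => sq_nonneg _

end Pool.Agent.H.MP_47966f_an
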