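import Pool.Agent.H.MP_47966f_an.B

set_option autoImplicit false
open Finset Filter Topology MeasureTheory Complex
open scoped Classical ComplexConjugate BoundedContinuousFunction ENNReal

namespace Pool.Agent.H.MP_47966f_an

theorem inj_re {μ : Measure ℝ} {u : ℝ → ℝ} (hu : Integrable u μ)
    (h : ∀ t : ℝ, ∫ x, u x * exp (t * x * I) ∂μ = 0) : u =ᵐ[μ] 0 := by
  have := isFiniteMeasure_withDensity_ofReal hu.2
  have := isFiniteMeasure_withDensity_ofReal hu.neg.2
  have m := hu.1.aemeasurable.ennreal_ofReal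
  have m' := hu.neg.1.aemeasurable.ennreal_ofReal
  have := (withDensity_eq_iff m m' hu.lintegral_lt_top.ne).1 (Measure.ext_of_charFun
    (funext fun L => by
      have i {u : ℝ → ℝ} (hu : Integrable u μ) :
          Integrable (fun x => (ENNReal.ofReal (u x)).toReal • exp (L * x * I)) μ :=
        hu.pos_part.ofReal.mul_bdd (c := 1) (Continuous.aestronglyMeasurable (by fun_prop))
          (.of_forall fun x => by
            rw [← ofReal_mul]; exact (norm_exp_ofReal_mul_I _).le)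
      rw [charFun_apply_real, charFun_apply_real, integral_withDensity_eq_integral_toReal_smul₀ m
        (by simp), integral_withDensity_eq_integral_toReal_smul₀ m' (by simp), ← sub_eq_zero,
        ← integral_sub (i hu) (i hu.neg), ← h L]
      congr 1 with x
      rw [← sub_smul, ENNReal.toReal_ofReal', ENNReal.toReal_ofReal', Pi.neg_apply,
        max_zero_sub_max_neg_zero_eq_self, real_smul]))
  filter_upwards [this] with x hx
  have := congrArg ENNReal.toReal hx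
  rw [ENNReal.toReal_ofReal', ENNReal.toReal_ofReal', ← sub_eq_zero, Pi.neg_apply,
    max_zero_sub_max_neg_zero_eq_self] at this
  exact this

theorem inj {μ : Measure ℝ} {f : ℝ → ℂ} (hf : Integrable f μ)
    (h2 : ∀ t : ℝ, ∫ x, f x * exp (t * x * I) ∂μ = 0) : f =ᵐ[μ] 0 := by
  have h3 (L : ℝ) : ∫ x, starRingEnd ℂ (f x) * exp (L * x * I) ∂μ = 0 := by
    have := congrArg (starRingEnd ℂ) (h2 (-L))
    simpa [← integral_conj, ← exp_conj] using this
  have i0 {g : ℝ → ℂ} (hg : Integrable g μ) (L : ℝ) :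
      Integrable (fun x : ℝ => g x * exp (L * x * I)) μ :=
    hg.mul_bdd (c := 1) (Continuous.aestronglyMeasurable (by fun_prop))
      (.of_forall fun x => by rw [← ofReal_mul]; exact (norm_exp_ofReal_mul_I _).le)
  have i := i0 hf
  have i' := i0 (conjCLE.integrable_comp_iff.2 hf)
  simp only [conjCLE_apply] at i'
  filter_upwards [inj_re hf.re fun L => by
      simp only [RCLike.re_to_complex, re_eq_add_conj, div_mul_eq_mul_div, add_mul, integral_div]
      rw [integral_add (i L) (i' L), h2, h3]; simp, inj_re hf.im fun L => by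
      simp only [RCLike.im_to_complex, im_eq_sub_conj, div_mul_eq_mul_div, sub_mul, integral_div]
      rw [integral_sub (i L) (i' L), h2, h3]; simp] with x h1 h2
  exact Complex.ext h1 h2

noncomputable def eb (l : ℝ) : ℝ →ᵇ ℂ :=
  BoundedContinuousFunction.ofNormedAddCommGroup (fun x => E (l * x)) (by fun_prop) 1
    fun _ => (E_norm _).le

variable (μ : Measure ℝ) [IsProbabilityMeasure μ]

noncomputable def ev (l : ℝ) : Lp ℂ 2 μ := BoundedContinuousFunction.toLp 2 μ ℂ (eb l)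

noncomputable def Fo (ξ : ℝ) : ℂ := charFun μ (2 * Real.pi * ξ)

theorem ev_ae (l : ℝ) : ev μ l =ᵐ[μ] fun x => E (l * x) :=
  BoundedContinuousFunction.coeFn_toLp 2 μ ℂ _

theorem ev_ae' (l : ℝ) : ev μ l =ᵐ[μ] fun x : ℝ => exp (2 * Real.pi * I * l * x) := by
  refine (ev_ae μ l).trans (Eventually.of_forall fun x => ?_)
  show E (l * x) = _
  unfold E; congr 1; push_cast; ring

theorem ev_inner (a b : ℝ) : inner ℂ (ev μ a) (ev μ b) = Fo μ (b - a) := by
  rw [L2.inner_def, Fo, charFun_apply_real]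
  refine integral_congr_ae ?_
  filter_upwards [ev_ae μ a, ev_ae μ b] with x h1 h2
  rw [h1, h2, RCLike.inner_apply, E_conj, ← E_add]
  unfold E; congr 1; push_cast; ring

theorem ev_norm (a : ℝ) : ‖ev μ a‖ = 1 := by
  have h1 := ev_inner μ a a
  rw [sub_self, Fo, mul_zero, charFun_zero, inner_self_eq_norm_sq_to_K] at h1
  have h2 : ‖ev μ a‖ ^ 2 = 1 := by
    apply Complex.ofReal_injective
    simpa using h1
  exact (pow_eq_one_iff_of_nonneg (norm_nonneg _) two_ne_zero).1 h2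

theorem ev_total {f : Lp ℂ 2 μ} (h : ∀ l, inner ℂ (ev μ l) f = 0) : f = 0 := by
  refine Lp.eq_zero_iff_ae_eq_zero.2 (inj ((Lp.memLp f).integrable one_le_two) fun t => ?_)
  rw [← h (-(t / (2 * Real.pi))), L2.inner_def]
  refine integral_congr_ae ?_
  filter_upwards [ev_ae μ (-(t / (2 * Real.pi)))] with x h1
  rw [h1, RCLike.inner_apply, E_conj]
  unfold E
  congr 2
  have : (Real.pi : ℂ) ≠ 0 := by exact_mod_cast Real.pi_ne_zero
  push_cast; field_simp

theorem orth_span {ι H : Type*} [NormedAddCommGroup H] [InnerProductSpace ℂ H] [CompleteSpace H]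
    (v : ι → H) : (Submodule.span ℂ (Set.range v)).topologicalClosure = ⊤ ↔
      ∀ f, (∀ i, inner ℂ (v i) f = 0) → f = 0 := by
  rw [Submodule.topologicalClosure_eq_top_iff, Submodule.eq_bot_iff]
  refine forall_congr' fun f => imp_congr_left ⟨fun h i =>
    (Submodule.mem_orthogonal _ _).1 h _ (Submodule.subset_span ⟨i, rfl⟩), fun h => ?_⟩
  rw [Submodule.mem_orthogonal]
  intro u hu
  induction hu using Submodule.span_induction with
  | mem x hx => obtain ⟨i, rfl⟩ := hx; exact h i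
  | zero => simp
  | add x y _ _ hx hy => rw [inner_add_left, hx, hy, add_zero]
  | smul a x _ hx => rw [inner_smul_left, hx, mul_zero]

variable {N : ℕ → ℕ}

theorem complete (hN : ∀ k, 2 ≤ N k)
    (hμ : ∀ ξ, Tendsto (fun n => Ph N 1 n ξ) atTop (𝓝 (Fo μ ξ))) {B : Set ℤ}
    (hB : ∀ G : Finset ℤ, ↑G ⊆ B → ∀ j, ∃ G' : Finset ℤ, G ⊆ G' ∧ ↑G' ⊆ B ∧ G'.Nonempty ∧
      ∃ M, j ≤ M ∧ Good N M G') (ξ s : ℝ)
    (hs : ∀ G : Finset ℤ, ↑G ⊆ B → ∑ g ∈ G, ‖Fo μ (ξ + g)‖ ^ 2 ≤ s) : 1 ≤ s := by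
  by_contra! h1
  have step : ∀ t, (∀ G : Finset ℤ, ↑G ⊆ B → ∑ g ∈ G, ‖Fo μ (ξ + g)‖ ^ 2 ≤ t) →
      ∀ G : Finset ℤ, ↑G ⊆ B → ∑ g ∈ G, ‖Fo μ (ξ + g)‖ ^ 2 +
        1 / 400 * (1 - ∑ g ∈ G, ‖Fo μ (ξ + g)‖ ^ 2) ≤ t := by
    intro t ht G hG
    have l1 : Tendsto (fun n => ∑ g ∈ G, ‖Fo μ (ξ + g)‖ ^ 2 +
        1 / 400 * (1 - ∑ g ∈ G, ‖Ph N 1 n (ξ + g)‖ ^ 2)) atTop (𝓝 (∑ g ∈ G, ‖Fo μ (ξ + g)‖ ^ 2 +
        1 / 400 * (1 - ∑ g ∈ G, ‖Fo μ (ξ + g)‖ ^ 2))) :=
      tendsto_const_nhds.add ((tendsto_const_nhds.sub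
        (tendsto_finset_sum _ fun g _ => (hμ _).norm.pow 2)).const_mul _)
    refine le_of_tendsto_of_frequently l1 (frequently_atTop.2 fun j => ?_)
    obtain ⟨j0, hj0⟩ := exists_nat_ge (20 * |ξ|)
    obtain ⟨G', a1, a2, a3, M, a4, a5⟩ := hB G hG (max j j0)
    refine ⟨M, (le_max_left _ _).trans a4, le_trans ?_ (ht G' a2)⟩
    have b1 := lower hN a5 a3 ξ
    rw [← sum_sdiff a1] at b1 ⊢
    have b2 : ∑ g ∈ G' \ G, 1 / 400 * ‖Ph N 1 M (ξ + g)‖ ^ 2 ≤
        ∑ g ∈ G' \ G, ‖Fo μ (ξ + g)‖ ^ 2 := by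
      refine sum_le_sum fun g hg => ?_
      have c1 : (2 : ℝ) * |(g : ℝ)| ≤ P N (2 * M) := by
        exact_mod_cast a5.1 g (mem_sdiff.1 hg).1
      have c2 : ((2 * M : ℕ) : ℝ) < P N (2 * M) := by exact_mod_cast P_gt hN _
      have c3 : (j0 : ℝ) ≤ M := by exact_mod_cast (le_max_right _ _).trans a4
      have c4 := tail_c hN M (ξ := ξ + g) (by
        have := abs_add_le ξ g
        have := abs_nonneg ξ
        push_cast at c2
        linarith) (hμ _)
      have c5 := pow_le_pow_left₀ (by positivity) c4 2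
      linarith
    rw [← mul_sum] at b2
    linarith
  have all : ∀ n : ℕ, ∀ G : Finset ℤ, ↑G ⊆ B →
      ∑ g ∈ G, ‖Fo μ (ξ + g)‖ ^ 2 ≤ s - n * ((1 - s) / 400) := by
    intro n
    induction n with
    | zero => simpa using hs
    | succ n ih =>
      intro G hG
      have := step _ ih G hG
      have := hs G hG
      push_cast
      linarith
  obtain ⟨n, hn⟩ := exists_nat_gt (s / ((1 - s) / 400))
  have := all n ∅ (by simp)
  rw [div_lt_iff₀ (by linarith)] at hn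
  rw [sum_empty] at this
  linarith

theorem main (hN : ∀ k, 2 ≤ N k) (ν : Measure ℝ) [IsProbabilityMeasure ν]
    (hμ : ∀ ξ, Tendsto (fun n => Ph N 0 n ξ) atTop (𝓝 (Fo μ ξ)))
    (hν : ∀ ξ, Tendsto (fun n => Ph N 1 n ξ) atTop (𝓝 (Fo ν ξ))) {A : Set ℝ}
    (h1 : Orthonormal ℂ fun l : A => ev μ l)
    (h2 : (Submodule.span ℂ (Set.range fun l : A => ev μ l)).topologicalClosure = ⊤) :
    ∃ B : Set ℝ, B.Countable ∧ (Orthonormal ℂ fun l : B => ev ν l) ∧
      (Submodule.span ℂ (Set.range fun l : B => ev ν l)).topologicalClosure = ⊤ ∧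
      (∀ a ∈ A, ∀ b ∈ B, ∃ n : ℤ, a + b = n) ∧
      ∀ n : ℤ, ∃! p : ℝ × ℝ, p.1 ∈ A ∧ p.2 ∈ B ∧ p.1 + p.2 = n := by
  rw [orth_span] at h2
  have hmax : ∀ x : ℝ, (∀ a ∈ A, Fo μ (x - a) = 0) → False := fun x hx => by
    have := ev_norm μ x
    rw [h2 (ev μ x) fun a => by rw [ev_inner]; exact hx a a.2] at this
    simp at this
  obtain ⟨a0, ha0⟩ : A.Nonempty := by
    by_contra h
    exact hmax 0 fun a ha => absurd ⟨a, ha⟩ h
  have hd : ∀ a ∈ A, ∀ b ∈ A, a ≠ b → ∃ d : ℤ, a - b = d ∧ Od N 0 d := fun a ha b hb hab => by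
    have := h1.2 (i := ⟨b, hb⟩) (j := ⟨a, ha⟩) (by simpa using hab.symm)
    simp only [ev_inner] at this
    exact (lim_zero hN (by norm_num) (hμ _)).1 this
  have hint : ∀ a ∈ A, ∃ n : ℤ, a = a0 + n := fun a ha => by
    by_cases h : a = a0
    · exact ⟨0, by simp [h]⟩
    · obtain ⟨d, h3, -⟩ := hd a ha a0 ha0 h
      exact ⟨d, by linarith⟩
  let A' : Set ℤ := {n | a0 + n ∈ A}
  have hA : Orth N 0 A' := fun a ha b hb hab => by
    obtain ⟨d, h3, h4⟩ := hd _ ha _ hb (by simpa using hab)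
    have : a - b = d := by
      rw [add_sub_add_left_eq_sub] at h3
      exact_mod_cast h3
    rwa [this]
  have hM : Mx N 0 A' Set.univ := fun x _ h => by
    by_contra hx
    refine hmax (a0 + x) fun a ha => ?_
    obtain ⟨n, rfl⟩ := hint a ha
    exact (lim_zero hN (by norm_num) (hμ _)).2 ⟨x - n, by push_cast; ring,
      h n ha (by rintro rfl; exact hx ha)⟩
  obtain ⟨B, b1, b2, b3⟩ := comb hN hA hM ⟨0, by simpa [A'] using ha0⟩
  have hon : Orthonormal ℂ fun b : B => ev ν (((b : ℤ) : ℝ) - a0) := by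
    refine ⟨fun _ => ev_norm _ _, fun i j hij => ?_⟩
    simp only [ev_inner]
    exact (lim_zero hN (by norm_num) (hν _)).2 ⟨j - i, by push_cast; ring,
      b1 _ j.2 _ i.2 fun h => hij (Subtype.ext h.symm)⟩
  refine ⟨(fun b : ℤ => (b : ℝ) - a0) '' B, (Set.to_countable B).image _,
    ⟨fun _ => ev_norm _ _, ?_⟩, ?_, ?_, ?_⟩
  · rintro ⟨_, i, hi, rfl⟩ ⟨_, j, hj, rfl⟩ hij
    exact hon.2 (i := ⟨i, hi⟩) (j := ⟨j, hj⟩) (by rintro h; apply hij; simp_all)
  · rw [orth_span]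
    intro f hf
    have hf' : ∀ b : B, inner ℂ (ev ν (((b : ℤ) : ℝ) - a0)) f = 0 := fun b => hf ⟨_, b, b.2, rfl⟩
    by_contra hf0
    apply hf0
    refine ev_total ν fun l => ?_
    have hp : 0 < ‖f‖ := norm_pos_iff.2 hf0
    let c : ℂ := inner ℂ f (ev ν l) / (‖f‖ ^ 2 : ℝ)
    have n1 : ‖ev ν l - c • f‖ ^ 2 = 1 - ‖inner ℂ f (ev ν l)‖ ^ 2 / ‖f‖ ^ 2 := by
      rw [@norm_sub_sq ℂ, ev_norm, inner_smul_right, norm_smul, ← inner_conj_symm (ev ν l) f]
      simp only [c]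
      rw [div_mul_eq_mul_div, Complex.mul_conj', norm_div, Complex.norm_real,
        Real.norm_of_nonneg (by positivity), ← ofReal_pow, ← ofReal_div, RCLike.re_to_complex,
        ofReal_re]
      field_simp
      ring
    have := complete ν hN hν b3 (-a0 - l) (‖ev ν l - c • f‖ ^ 2) fun G hG => by
      have := hon.sum_inner_products_le (ev ν l - c • f) (s := G.subtype (· ∈ B))
      refine le_trans (le_of_eq ?_) this
      rw [← sum_subtype_of_mem (fun g : ℤ => ‖Fo ν (-a0 - l + g)‖ ^ 2) (p := (· ∈ B))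
        fun g hg => hG hg]
      refine sum_congr rfl fun g _ => ?_
      rw [inner_sub_right, inner_smul_right, hf', mul_zero, sub_zero, norm_inner_symm, ev_inner]
      congr 3; ring
    rw [n1] at this
    have h3 : ‖inner ℂ f (ev ν l)‖ ^ 2 / ‖f‖ ^ 2 ≤ 0 := by linarith
    rw [div_le_iff₀ (by positivity), zero_mul] at h3
    rw [inner_eq_zero_symm, ← norm_eq_zero]
    exact pow_eq_zero_iff two_ne_zero |>.1 (le_antisymm h3 (by positivity))
  · rintro a ha _ ⟨b, -, rfl⟩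
    obtain ⟨n, rfl⟩ := hint a ha
    exact ⟨n + b, by push_cast; ring⟩
  · intro n
    obtain ⟨a, ha, hb⟩ := b2 n
    refine ⟨(a0 + a, ((n - a : ℤ) : ℝ) - a0), ⟨ha, ⟨_, hb, rfl⟩, by push_cast; ring⟩, ?_⟩
    rintro ⟨x, _⟩ ⟨hx, ⟨b, hb', rfl⟩, h3⟩
    obtain ⟨m, rfl⟩ := hint x hx
    have h4 : m + b = n := by
      have : (m : ℝ) + b = n := by simp only at h3; linarith
      exact_mod_cast this
    have h5 : m = a := by
      by_contra h5
      obtain ⟨i, hi, h6⟩ := hA m hx a ha h5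
      obtain ⟨j, hj, h7⟩ := b1 _ hb _ hb' (by omega)
      rw [show n - a - b = m - a by omega] at h7
      have := h6.uniq h7
      omega
    subst h5
    rw [show n - m = b by omega]

noncomputable def nu (N : ℕ → ℕ) (k : ℕ) : Measure ℝ :=
  (N k : ℝ≥0∞)⁻¹ • ∑ j ∈ range (N k), Measure.dirac ((j : ℝ) / ∏ i ∈ range (k + 1), (N i : ℝ))

noncomputable def pc (N : ℕ → ℕ) (r : ℕ) : ℕ → Measure ℝ
  | 0 => Measure.dirac 0
  | n + 1 => (pc N r n).conv (nu N (2 * n + r))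

theorem nu_prob (hN : ∀ k, 2 ≤ N k) (k : ℕ) : IsProbabilityMeasure (nu N k) := ⟨by
  have : (N k : ℝ≥0∞) ≠ 0 := by have := hN k; simp; omega
  simp [nu, ENNReal.inv_mul_cancel this]⟩

theorem pc_prob (hN : ∀ k, 2 ≤ N k) (r n : ℕ) : IsProbabilityMeasure (pc N r n) := by
  induction n with
  | zero => unfold pc; infer_instance
  | succ n ih => have := nu_prob hN (2 * n + r); unfold pc; infer_instance

theorem nu_ch (k : ℕ) (ξ : ℝ) : charFun (nu N k) (2 * Real.pi * ξ) = ph N k ξ := by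
  rw [charFun_apply_real, nu, integral_smul_measure, integral_finset_sum_measure
    fun _ _ => integrable_dirac (by simp)]
  simp only [integral_dirac, ENNReal.toReal_inv, ENNReal.toReal_natCast, real_smul, ph]
  congr 1
  · simp
  · refine sum_congr rfl fun j _ => ?_
    unfold E P
    congr 1; push_cast; ring

theorem pc_ch (hN : ∀ k, 2 ≤ N k) (r n : ℕ) (ξ : ℝ) :
    charFun (pc N r n) (2 * Real.pi * ξ) = Ph N r n ξ := by
  induction n with
  | zero => simp [pc, Ph]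
  | succ n ih =>
    have := nu_prob hN (2 * n + r)
    have := pc_prob hN r n
    unfold pc Ph
    rw [charFun_conv, ih, nu_ch, prod_range_succ, Ph]

theorem lim_ch (hN : ∀ k, 2 ≤ N k) (r : ℕ)
    (h : ∀ f : ℝ →ᵇ ℝ, Tendsto (fun n => ∫ x, f x ∂pc N r n) atTop (𝓝 (∫ x, f x ∂μ))) (ξ : ℝ) :
    Tendsto (fun n => Ph N r n ξ) atTop (𝓝 (Fo μ ξ)) := by
  have := (ProbabilityMeasure.tendsto_iff_tendsto_charFun
    (μ := fun n => ⟨pc N r n, pc_prob hN r n⟩) (μ₀ := ⟨μ, inferInstance⟩)).1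
    (ProbabilityMeasure.tendsto_iff_forall_integral_tendsto.2 h) (2 * Real.pi * ξ)
  simpa only [ProbabilityMeasure.coe_mk, pc_ch hN, Fo] using this

end Pool.Agent.H.MP_47966f_an
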